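import Mathlib

set_option autoImplicit false

/-!
# Nilpotent almost torsion-free groups satisfy the weak cancellation law

If `x ^ n = y ^ n` in a nilpotent group of class at most `c`, then `(x⁻¹ * y) ^ (n ^ c) = 1`: in the
subgroup `H` generated by `x` and `y` the element `x ^ n = y ^ n` is central, hence every factor
of the lower central series of `H` (after the first one) has exponent dividing `n`.
-/

namespace Pool.Agent.Results.MP_1cb079_al.WeakCancellation

universe u

/-- `G` is almost torsion-free: for every `n > 0` there are only finitely many `g` with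
`g ^ n = 1`. -/
def AlmostTorsionFree (G : Type u) [Group G] : Prop :=
  ∀ n : ℕ, 0 < n → {g : G | g ^ n = 1}.Finite

/-- The weak cancellation law: for every `n > 0` the power map `x ↦ x ^ n` is
finitely-many-to-one. -/
def WCL (G : Type u) [Group G] : Prop :=
  ∀ n : ℕ, 0 < n → ∀ y : G, {x : G | x ^ n = y}.Finite

section TwoGen

open Subgroup
open scoped commutatorElement

variable {H : Type u} [Group H]

/-- the commutator with `u` is multiplicative in the second argument modulo `M`, as soon as its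
values are central modulo `M` -/
lemma comm_mul {Q : Type u} [Group Q] (φ : H →* Q) (u : H)
    (hc : ∀ h k : H, φ ⁅u, h⁆ * φ k = φ k * φ ⁅u, h⁆) (h k : H) :
    φ ⁅u, h * k⁆ = φ ⁅u, h⁆ * φ ⁅u, k⁆ := by
  have : ⁅u, h * k⁆ = ⁅u, h⁆ * (h * ⁅u, k⁆ * h⁻¹) := by
    simp only [commutatorElement_def]; group
  rw [this, map_mul, map_mul, map_mul, ← hc k h, mul_assoc (φ ⁅u, k⁆), ← map_mul φ h,
    mul_inv_cancel, map_one, mul_one]

lemma comm_pow {Q : Type u} [Group Q] (φ : H →* Q) (u : H)
    (hc : ∀ h k : H, φ ⁅u, h⁆ * φ k = φ k * φ ⁅u, h⁆) (h : H) (n : ℕ) :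
    φ ⁅u, h ^ n⁆ = φ ⁅u, h⁆ ^ n := by
  induction n with
  | zero => simp
  | succ n ih => rw [pow_succ, comm_mul φ u hc, ih, pow_succ]

/-- Let `z = x ^ n = y ^ n`, where `x` and `y` generate `H`. If the values of `[u, ·]` are central
modulo the kernel of `φ`, then their `n`-th powers are trivial modulo this kernel. -/
lemma comm_pow_eq_one {Q : Type u} [Group Q] (φ : H →* Q) (u : H)
    (hc : ∀ h k : H, φ ⁅u, h⁆ * φ k = φ k * φ ⁅u, h⁆) {x y : H} {n : ℕ}
    (hgen : closure {x, y} = (⊤ : Subgroup H)) (hxy : x ^ n = y ^ n) (h : H) :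
    φ ⁅u, h⁆ ^ n = 1 := by
  -- `x ^ n` is central
  have hz : ∀ w : H, w * x ^ n = x ^ n * w := by
    intro w
    have hw : w ∈ closure {x, y} := by rw [hgen]; trivial
    induction hw using closure_induction with
    | mem w hw =>
      rcases hw with rfl | rfl
      · exact ((Commute.refl w).pow_right n).eq
      · rw [hxy]; exact ((Commute.refl w).pow_right n).eq
    | one => simp
    | mul a b _ _ ha hb => rw [mul_assoc, hb, ← mul_assoc, ha, mul_assoc]
    | inv a _ ha =>
      rw [inv_mul_eq_iff_eq_mul, ← mul_assoc, ha, mul_assoc, mul_inv_cancel, mul_one]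
  have hh : h ∈ closure {x, y} := by rw [hgen]; trivial
  induction hh using closure_induction with
  | mem w hw =>
    rw [← comm_pow φ u hc]
    rcases hw with rfl | rfl
    · rw [commutatorElement_eq_one_iff_mul_comm.2 (hz u), map_one]
    · rw [← hxy, commutatorElement_eq_one_iff_mul_comm.2 (hz u), map_one]
  | one => simp
  | mul a b _ _ ha hb =>
    have : Commute (φ ⁅u, a⁆) (φ ⁅u, b⁆) := hc a _
    rw [comm_mul φ u hc, this.mul_pow, ha, hb, one_mul]
  | inv a _ ha =>
    have h1 : φ ⁅u, a⁻¹⁆ * φ ⁅u, a⁆ = 1 := by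
      rw [← comm_mul φ u hc]; simp
    rw [eq_inv_of_mul_eq_one_left h1, inv_pow, ha, inv_one]

/-- every factor of the lower central series after the first one has exponent dividing `n` -/
lemma pow_mem_succ {x y : H} {n : ℕ}
    (hgen : closure {x, y} = (⊤ : Subgroup H)) (hxy : x ^ n = y ^ n) (k : ℕ) {v : H}
    (hv : v ∈ (⊤ : Subgroup H).lowerCentralSeries (k + 1)) :
    v ^ n ∈ (⊤ : Subgroup H).lowerCentralSeries (k + 2) := by
  set M : Subgroup H := (⊤ : Subgroup H).lowerCentralSeries (k + 2) with hM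
  have hMn : M.Normal := inferInstance
  let φ : H →* H ⧸ M := QuotientGroup.mk' M
  have hφ : ∀ w, φ w = 1 ↔ w ∈ M := fun w => QuotientGroup.eq_one_iff w
  have hcen : ∀ w ∈ (⊤ : Subgroup H).lowerCentralSeries (k + 1), ∀ t : H,
      φ w * φ t = φ t * φ w := by
    intro w hw t
    have : ⁅w, t⁆ ∈ M := by
      rw [hM, Subgroup.lowerCentralSeries_succ]
      exact commutator_mem_commutator hw trivial
    rw [← hφ, map_commutatorElement, commutatorElement_eq_one_iff_mul_comm] at this
    exact this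
  rw [← hφ, map_pow]
  rw [Subgroup.lowerCentralSeries_succ, Subgroup.commutator_def] at hv
  suffices φ v ^ n = 1 ∧ ∀ t : H, φ v * φ t = φ t * φ v from this.1
  induction hv using closure_induction with
  | mem w hw =>
    obtain ⟨u, hu, h, -, rfl⟩ := hw
    have hc : ∀ h k : H, φ ⁅u, h⁆ * φ k = φ k * φ ⁅u, h⁆ := by
      intro h t
      refine hcen _ ?_ t
      rw [Subgroup.lowerCentralSeries_succ]
      exact commutator_mem_commutator hu trivial
    exact ⟨comm_pow_eq_one φ u hc hgen hxy h, hc h⟩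
  | one => simp
  | mul a b _ _ ha hb =>
    have : Commute (φ a) (φ b) := ha.2 b
    refine ⟨by rw [map_mul, this.mul_pow, ha.1, hb.1, one_mul], fun t => ?_⟩
    rw [map_mul, mul_assoc, hb.2, ← mul_assoc, ha.2, mul_assoc]
  | inv a _ ha =>
    refine ⟨by rw [map_inv, inv_pow, ha.1, inv_one], fun t => ?_⟩
    rw [map_inv, inv_mul_eq_iff_eq_mul, ← mul_assoc, ha.2, mul_assoc, mul_inv_cancel, mul_one]

lemma pow_pow_mem {x y : H} {n : ℕ}
    (hgen : closure {x, y} = (⊤ : Subgroup H)) (hxy : x ^ n = y ^ n) (k : ℕ) :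
    (x⁻¹ * y) ^ n ^ k ∈ (⊤ : Subgroup H).lowerCentralSeries k := by
  induction k with
  | zero => simp
  | succ k ih =>
    cases k with
    | succ k => rw [pow_succ n, pow_mul]; exact pow_mem_succ hgen hxy k ih
    | zero =>
      rw [zero_add, pow_one, top_lowerCentralSeries_one, ← Abelianization.ker_of,
        MonoidHom.mem_ker, map_pow, map_mul, mul_pow, map_inv, inv_pow, ← map_pow, ← map_pow,
        hxy, inv_mul_cancel]

end TwoGen

/-- If `x ^ n = y ^ n` in a nilpotent group of class at most `c`, then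
`(x⁻¹ * y) ^ (n ^ c) = 1`. -/
lemma pow_pow_eq_one (G : Type u) [Group G] {c : ℕ}
    (hc : (⊤ : Subgroup G).lowerCentralSeries c = ⊥) {x y : G} {n : ℕ} (hxy : x ^ n = y ^ n) :
    (x⁻¹ * y) ^ n ^ c = 1 := by
  obtain ⟨H, hH⟩ : ∃ H : Subgroup G, H = Subgroup.closure {x, y} := ⟨_, rfl⟩
  have hx : x ∈ H := by rw [hH]; exact Subgroup.subset_closure (by simp)
  have hy : y ∈ H := by rw [hH]; exact Subgroup.subset_closure (by simp)
  have hgen : Subgroup.closure {(⟨x, hx⟩ : H), ⟨y, hy⟩} = ⊤ := by
    apply Subgroup.map_injective H.subtype_injective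
    rw [MonoidHom.map_closure, ← MonoidHom.range_eq_map, Subgroup.range_subtype,
      Set.image_pair]
    exact hH.symm
  have h1 : ((⟨x, hx⟩ : H)⁻¹ * ⟨y, hy⟩) ^ n ^ c ∈ (⊤ : Subgroup H).lowerCentralSeries c :=
    pow_pow_mem hgen (Subtype.ext hxy) c
  have h2 := Subgroup.mem_map_of_mem H.subtype h1
  rw [Subgroup.top_subtype_lowerCentralSeries, map_pow] at h2
  have h3 : (x⁻¹ * y) ^ n ^ c ∈ H.lowerCentralSeries c := h2
  have h4 : (x⁻¹ * y) ^ n ^ c ∈ (⊤ : Subgroup G).lowerCentralSeries c :=
    Subgroup.lowerCentralSeries_mono c (le_top (a := H)) h3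
  rw [hc, Subgroup.mem_bot] at h4
  exact h4

/-- Every nilpotent almost torsion-free group satisfies the weak cancellation law. -/
theorem result (G : Type u) [Group G] (hG : Group.IsNilpotent G) (h : AlmostTorsionFree G) :
    WCL G := by
  obtain ⟨c, hc⟩ := Subgroup.nilpotent_iff_lowerCentralSeries.1 hG
  intro n hn y
  rcases Set.eq_empty_or_nonempty {x : G | x ^ n = y} with h0 | ⟨x0, hx0⟩
  · rw [h0]; exact Set.finite_empty
  · refine ((h (n ^ c) (pow_pos hn c)).image (fun g => x0 * g)).subset ?_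
    intro x hx
    refine ⟨x0⁻¹ * x, ?_, by simp⟩
    exact pow_pow_eq_one G hc ((show x0 ^ n = y from hx0).trans (show x ^ n = y from hx).symm)

end Pool.Agent.Results.MP_1cb079_al.WeakCancellation
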